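import Pool.Agent.Q245.Gi.Rad

set_option autoImplicit false
set_option maxHeartbeats 1000000

namespace Pool.Agent.Q245.Gi

open Pool.Agent.Q245.Vj (rad ABC Truncated)

/-- `S` contains exactly one Gaussian prime from each class of associated Gaussian primes which
divide `x` -/
def System (S : Finset GaussianInt) (x : GaussianInt) : Prop :=
  (∀ Q ∈ S, Prime Q ∧ Q ∣ x) ∧ (∀ Q : GaussianInt, Prime Q → Q ∣ x → ∃ R ∈ S, Associated Q R) ∧
    ∀ Q ∈ S, ∀ R ∈ S, Associated Q R → Q = R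

/-- the abc inequality for Gaussian triples with `|a| = |b|` -/
def Iso : Prop :=
  ∀ ε : ℝ, 0 < ε → ∃ C : ℝ, 0 < C ∧ ∀ a b c : GaussianInt, a + b = c → IsCoprime a b →
    a * b * c ≠ 0 → ab a = ab b → ∀ S : Finset GaussianInt, System S (a * b * c) →
      C * (max (ab a) (max (ab b) (ab c))) ^ (1 - ε) ≤ ∏ Q ∈ S, ab Q

lemma exists_system (x : GaussianInt) (hx : x ≠ 0) : ∃ S, System S x := by
  classical
  let o : GaussianInt → GaussianInt := fun q => Quotient.out (Associates.mk q)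
  have ho : ∀ q, Associated (o q) q := by
    intro q
    rw [← Associates.mk_eq_mk_iff_associated]
    exact Quotient.out_eq _
  refine ⟨(UniqueFactorizationMonoid.factors x).toFinset.image o, ?_, ?_, ?_⟩
  · intro Q hQ
    rw [Finset.mem_image] at hQ
    obtain ⟨q, hq, rfl⟩ := hQ
    rw [Multiset.mem_toFinset] at hq
    have hqp := UniqueFactorizationMonoid.prime_of_factor q hq
    exact ⟨(ho q).symm.prime hqp,
      (ho q).dvd.trans (UniqueFactorizationMonoid.dvd_of_mem_factors hq)⟩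
  · intro Q hQ hQx
    obtain ⟨q, hq, hqQ⟩ := UniqueFactorizationMonoid.exists_mem_factors_of_dvd hx hQ.irreducible hQx
    refine ⟨o q, Finset.mem_image_of_mem _ (by rwa [Multiset.mem_toFinset]), ?_⟩
    exact hqQ.trans (ho q).symm
  · intro Q hQ R hR h
    rw [Finset.mem_image] at hQ hR
    obtain ⟨q, -, rfl⟩ := hQ
    obtain ⟨r, -, rfl⟩ := hR
    have : Associated q r := (ho q).symm.trans (h.trans (ho r))
    show Quotient.out (Associates.mk q) = Quotient.out (Associates.mk r)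
    rw [Associates.mk_eq_mk_iff_associated.mpr this]

/-- `p + q i` and its conjugate are coprime for coprime `p`, `q` of opposite parity -/
lemma coprime_conj (p q : ℤ) (h : IsCoprime p q) (hodd : Odd (p ^ 2 + q ^ 2)) :
    IsCoprime (⟨p, q⟩ : GaussianInt) ⟨p, -q⟩ := by
  obtain ⟨k, hk⟩ := hodd
  have h2 : IsCoprime (⟨p, q⟩ : GaussianInt) 2 := by
    refine ⟨⟨p, -q⟩, ⟨-k, 0⟩, ?_⟩
    ext
    · simp
      linarith [hk]
    · simp
      ring
  have hp : IsCoprime (⟨p, q⟩ : GaussianInt) (p : GaussianInt) := by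
    obtain ⟨u, v, huv⟩ := h
    refine ⟨⟨0, -v⟩, ⟨u, v⟩, ?_⟩
    ext
    · simp
      linarith
    · simp
  have h3 := (h2.mul_right hp).add_mul_left_right (-1)
  have h4 : (2 * (p : GaussianInt) + ⟨p, q⟩ * -1) = ⟨p, -q⟩ := by
    ext
    · simp
      ring
    · simp
  rwa [h4] at h3

lemma cast_mk (n : ℤ) : (n : GaussianInt) = ⟨n, 0⟩ := by
  ext
  · exact Zsqrtd.re_intCast n
  · exact Zsqrtd.im_intCast n

lemma ab_mk_sq (p q : ℤ) : ab ⟨p, q⟩ ^ 2 = (p : ℝ) ^ 2 + (q : ℝ) ^ 2 := by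
  rw [ab_sq, Zsqrtd.norm_def]
  push_cast
  ring

lemma le_ab_left (p q : ℤ) : |(p : ℝ)| ≤ ab ⟨p, q⟩ := by
  apply abs_le_of_sq_le_sq _ (ab_nonneg _)
  rw [ab_mk_sq]
  nlinarith [sq_nonneg (q : ℝ)]

lemma le_ab_right (p q : ℤ) : |(q : ℝ)| ≤ ab ⟨p, q⟩ := by
  apply abs_le_of_sq_le_sq _ (ab_nonneg _)
  rw [ab_mk_sq]
  nlinarith [sq_nonneg (p : ℝ)]

lemma rad_two_mul (n : ℤ) : (rad (2 * n) : ℝ) ≤ 2 * rad n := by
  have := Pool.Agent.Q245.Vj.rad_mul_le_abs (a := 2) (b := n) (by norm_num)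
  simpa using this

/-- one step: a triple gives the inequality for `x, y` -/
lemma use {ε C : ℝ} (hε : 0 < ε) (hε1 : ε < 1) (hC : 0 < C)
    (H : ∀ a b c : GaussianInt, a + b = c → IsCoprime a b →
      a * b * c ≠ 0 → ab a = ab b → ∀ S : Finset GaussianInt, System S (a * b * c) →
        C * (max (ab a) (max (ab b) (ab c))) ^ (1 - ε) ≤ ∏ Q ∈ S, ab Q)
    (a b : GaussianInt) (n : ℤ) (hn : n ≠ 0) (hab : IsCoprime a b) (h0 : a * b * (a + b) ≠ 0)
    (he : ab a = ab b) (hdvd : a * b * (a + b) ∣ (n : GaussianInt)) (M : ℝ) (hM : 0 ≤ M)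
    (hMa : M ≤ ab a) : C * M ^ (1 - ε) ≤ rad n := by
  obtain ⟨S, hS⟩ := exists_system _ h0
  have h1 := H a b (a + b) rfl hab h0 he S hS
  have h2 := upper S n hn (fun Q hQ => ⟨(hS.1 Q hQ).1, (hS.1 Q hQ).2.trans hdvd⟩) hS.2.2
  have h3 : M ^ (1 - ε) ≤ (max (ab a) (max (ab b) (ab (a + b)))) ^ (1 - ε) :=
    Real.rpow_le_rpow hM (hMa.trans (le_max_left _ _)) (by linarith)
  have h4 := mul_le_mul_of_nonneg_left h3 hC.le
  linarith

theorem truncated_of_iso (H : Iso) :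
    Truncated 3 (fun x y => y * (1 * x ^ 2 + 0 * x * y + 1 * y ^ 2)) := by
  intro ε hε
  by_cases hε1 : 1 ≤ ε
  · refine ⟨1, fun x y hxy hF => ?_⟩
    have h1 := Pool.Agent.Q245.Vj.one_le_H hxy
    have h2 : (max |(x : ℝ)| |(y : ℝ)|) ^ (((3 : ℕ) : ℝ) - 2 - ε) ≤ 1 :=
      Real.rpow_le_one_of_one_le_of_nonpos h1 (by push_cast; linarith)
    have h3 := Pool.Agent.Q245.Vj.one_le_rad (y * (1 * x ^ 2 + 0 * x * y + 1 * y ^ 2))
    linarith
  push Not at hε1
  obtain ⟨C, hC, HC⟩ := H ε hε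
  refine ⟨2 / C, fun x y hxy hF => ?_⟩
  simp only [one_mul, zero_mul, add_zero] at hF ⊢
  have hy : y ≠ 0 := left_ne_zero_of_mul hF
  have hN : x ^ 2 + y ^ 2 ≠ 0 := right_ne_zero_of_mul hF
  have h3 : (((3 : ℕ) : ℝ) - 2 - ε) = 1 - ε := by push_cast; ring
  rw [h3]
  set M : ℝ := max |(x : ℝ)| |(y : ℝ)| with hMdef
  have hM1 : 1 ≤ M := Pool.Agent.Q245.Vj.one_le_H hxy
  rw [div_mul_eq_mul_div, le_div_iff₀ hC]
  by_cases hodd : Odd (x ^ 2 + y ^ 2)
  · -- opposite parity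
    have hc := (coprime_conj x y hxy hodd).neg_right
    have hb : -(⟨x, -y⟩ : GaussianInt) = ⟨-x, y⟩ := by
      ext <;> simp
    rw [hb] at hc
    have hs : (⟨x, y⟩ : GaussianInt) + ⟨-x, y⟩ = ⟨0, 2 * y⟩ := by
      ext
      · simp
      · simp; ring
    have hprod : (⟨x, y⟩ : GaussianInt) * ⟨-x, y⟩ * (⟨x, y⟩ + ⟨-x, y⟩) * ⟨0, 1⟩ =
        ((2 * (y * (x ^ 2 + y ^ 2)) : ℤ) : GaussianInt) := by
      rw [hs, cast_mk]
      ext
      · simp only [Zsqrtd.re_mul, Zsqrtd.im_mul]; ring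
      · simp only [Zsqrtd.re_mul, Zsqrtd.im_mul]; ring
    have hn0 : (2 * (y * (x ^ 2 + y ^ 2)) : ℤ) ≠ 0 := by
      simpa using hF
    have hne : (⟨x, y⟩ : GaussianInt) * ⟨-x, y⟩ * (⟨x, y⟩ + ⟨-x, y⟩) ≠ 0 := by
      intro h
      rw [h, zero_mul] at hprod
      exact hn0 (by exact_mod_cast hprod.symm)
    have hab : ab ⟨x, y⟩ = ab ⟨-x, y⟩ := by
      have h1 := ab_mk_sq x y
      have h2 := ab_mk_sq (-x) y
      push_cast at h2
      have : ab ⟨x, y⟩ ^ 2 = ab ⟨-x, y⟩ ^ 2 := by rw [h1, h2]; ring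
      exact (pow_left_inj₀ (ab_nonneg _) (ab_nonneg _) (by norm_num)).mp this
    have := use hε hε1 hC HC ⟨x, y⟩ ⟨-x, y⟩ (2 * (y * (x ^ 2 + y ^ 2))) hn0 hc hne hab
      ⟨_, hprod.symm⟩ M (by linarith) (max_le (le_ab_left x y) (le_ab_right x y))
    have h5 := rad_two_mul (y * (x ^ 2 + y ^ 2))
    rw [mul_comm]
    linarith
  · -- both odd
    have hev : Even (x ^ 2 + y ^ 2) := Int.not_odd_iff_even.mp hodd
    have hx2 : Odd x ∧ Odd y := by
      rcases Int.even_or_odd x with hx | hx <;> rcases Int.even_or_odd y with hy' | hy'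
      · exfalso
        obtain ⟨u, v, huv⟩ := hxy
        obtain ⟨s, hs⟩ := hx
        obtain ⟨t, ht⟩ := hy'
        have : (1 : ℤ) = 2 * (u * s + v * t) := by rw [← huv, hs, ht]; ring
        omega
      · exfalso
        obtain ⟨s, hs⟩ := hx
        obtain ⟨t, ht⟩ := hy'
        apply hodd
        exact ⟨2 * s ^ 2 + 2 * t ^ 2 + 2 * t, by rw [hs, ht]; ring⟩
      · exfalso
        obtain ⟨s, hs⟩ := hx
        obtain ⟨t, ht⟩ := hy'
        apply hodd
        exact ⟨2 * s ^ 2 + 2 * t ^ 2 + 2 * s, by rw [hs, ht]; ring⟩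
      · exact ⟨hx, hy'⟩
    obtain ⟨⟨s, hs⟩, ⟨t, ht⟩⟩ := hx2
    -- x = p - q, y = p + q
    obtain ⟨p, q, hp, hq⟩ : ∃ p q : ℤ, x = p - q ∧ y = p + q :=
      ⟨s + t + 1, t - s, by omega, by omega⟩
    have hpq : IsCoprime p q := by
      obtain ⟨u, v, huv⟩ := hxy
      exact ⟨u + v, v - u, by rw [← huv, hp, hq]; ring⟩
    have hodd' : Odd (p ^ 2 + q ^ 2) := by
      have h1 : p = s + t + 1 := by omega
      have h2 : q = t - s := by omega
      refine ⟨s ^ 2 + t ^ 2 + s + t, ?_⟩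
      rw [h1, h2]; ring
    have hc : IsCoprime (⟨p, q⟩ : GaussianInt) ⟨q, p⟩ := by
      have h1 := coprime_conj p q hpq hodd'
      have h2 : IsCoprime (⟨p, q⟩ : GaussianInt) ⟨0, 1⟩ :=
        ⟨0, ⟨0, -1⟩, by ext <;> simp⟩
      have h3 := h1.mul_right h2
      have h4 : (⟨p, -q⟩ : GaussianInt) * ⟨0, 1⟩ = ⟨q, p⟩ := by
        ext <;> simp
      rwa [h4] at h3
    have hprod : (⟨p, q⟩ : GaussianInt) * ⟨q, p⟩ * (⟨p, q⟩ + ⟨q, p⟩) * ⟨-1, -1⟩ =
        ((y * (x ^ 2 + y ^ 2) : ℤ) : GaussianInt) := by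
      rw [hp, hq, cast_mk]
      ext
      · simp; ring
      · simp; ring
    have hn0 : (y * (x ^ 2 + y ^ 2) : ℤ) ≠ 0 := hF
    have hne : (⟨p, q⟩ : GaussianInt) * ⟨q, p⟩ * (⟨p, q⟩ + ⟨q, p⟩) ≠ 0 := by
      intro h
      rw [h, zero_mul] at hprod
      exact hn0 (by exact_mod_cast hprod.symm)
    have hab : ab ⟨p, q⟩ = ab ⟨q, p⟩ := by
      have h1 := ab_mk_sq p q
      have h2 := ab_mk_sq q p
      have : ab ⟨p, q⟩ ^ 2 = ab ⟨q, p⟩ ^ 2 := by rw [h1, h2]; ring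
      exact (pow_left_inj₀ (ab_nonneg _) (ab_nonneg _) (by norm_num)).mp this
    have hMa : M / 2 ≤ ab ⟨p, q⟩ := by
      have h1 := le_ab_left p q
      have h2 := le_ab_right p q
      have h4 : |(x : ℝ)| ≤ |(p : ℝ)| + |(q : ℝ)| := by
        rw [hp]; push_cast; exact abs_sub _ _
      have h5 : |(y : ℝ)| ≤ |(p : ℝ)| + |(q : ℝ)| := by
        rw [hq]; push_cast; exact abs_add_le _ _
      have h6 : M ≤ |(p : ℝ)| + |(q : ℝ)| := max_le h4 h5
      linarith
    have := use hε hε1 hC HC ⟨p, q⟩ ⟨q, p⟩ (y * (x ^ 2 + y ^ 2)) hn0 hc hne hab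
      ⟨_, hprod.symm⟩ (M / 2) (by linarith) hMa
    have h6 : M ^ (1 - ε) ≤ 2 * (M / 2) ^ (1 - ε) := by
      have h7 : (M : ℝ) = 2 * (M / 2) := by ring
      have h8 : M ^ (1 - ε) = 2 ^ (1 - ε) * (M / 2) ^ (1 - ε) := by
        conv_lhs => rw [h7]
        rw [Real.mul_rpow (by norm_num) (by linarith)]
      have h9 : (2 : ℝ) ^ (1 - ε) ≤ 2 := by
        calc (2 : ℝ) ^ (1 - ε) ≤ 2 ^ (1 : ℝ) :=
              Real.rpow_le_rpow_of_exponent_le (by norm_num) (by linarith)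
          _ = 2 := by norm_num
      rw [h8]
      exact mul_le_mul_of_nonneg_right h9 (Real.rpow_nonneg (by linarith) _)
    nlinarith

/-- the integers `x`, `y` of a triple -/
lemma exists_xy (a b : GaussianInt) (h : ab a = ab b) (hc : a + b ≠ 0) :
    ∃ x y : ℤ, IsCoprime x y ∧ y ≠ 0 ∧ ∃ c' : GaussianInt, a + b = c' * y ∧
      ⟨0, 1⟩ * (a - b) = c' * x := by
  have hn : a.re ^ 2 + a.im ^ 2 = b.re ^ 2 + b.im ^ 2 := by
    have h1 : ab a ^ 2 = ab b ^ 2 := by rw [h]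
    rw [ab_sq, ab_sq, Zsqrtd.norm_def, Zsqrtd.norm_def] at h1
    have h2 : a.re * a.re - -1 * a.im * a.im = b.re * b.re - -1 * b.im * b.im := by
      exact_mod_cast h1
    linarith
  set c1 : ℤ := a.re + b.re with hc1
  set c2 : ℤ := a.im + b.im with hc2
  have hM : ¬ (-((a.im - b.im) * c1 - (a.re - b.re) * c2) = 0 ∧ c1 ^ 2 + c2 ^ 2 = 0) := by
    rintro ⟨-, h2⟩
    apply hc
    have e1 : c1 = 0 := by nlinarith [sq_nonneg c1, sq_nonneg c2]
    have e2 : c2 = 0 := by nlinarith [sq_nonneg c1, sq_nonneg c2]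
    ext
    · simpa using e1
    · simpa using e2
  obtain ⟨g, x, y, hg, hx, hy, hxy⟩ := Pool.Agent.Q245.Vj.exists_reduce _ _ hM
  have hMpos : 0 < c1 ^ 2 + c2 ^ 2 := by
    rcases lt_or_eq_of_le (show 0 ≤ c1 ^ 2 + c2 ^ 2 by positivity) with h1 | h1
    · exact h1
    · exfalso
      apply hc
      have e1 : c1 = 0 := by nlinarith [sq_nonneg c1, sq_nonneg c2]
      have e2 : c2 = 0 := by nlinarith [sq_nonneg c1, sq_nonneg c2]
      ext
      · simpa using e1
      · simpa using e2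
  have hy0 : y ≠ 0 := by
    rintro rfl
    rw [mul_zero] at hy
    omega
  -- the basic identity
  have hid : (⟨0, 1⟩ : GaussianInt) * (a - b) * (y : GaussianInt) = (a + b) * (x : GaussianInt) := by
    have hg0 : ((g : ℤ) : GaussianInt) ≠ 0 := by
      intro h0
      have : g = 0 := by exact_mod_cast h0
      omega
    apply mul_left_cancel₀ hg0
    have e1 : (g : GaussianInt) * (⟨0, 1⟩ * (a - b) * (y : GaussianInt)) =
        ⟨0, 1⟩ * (a - b) * ((g * y : ℤ) : GaussianInt) := by push_cast; ring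
    have e2 : (g : GaussianInt) * ((a + b) * (x : GaussianInt)) =
        (a + b) * ((g * x : ℤ) : GaussianInt) := by push_cast; ring
    rw [e1, e2, ← hx, ← hy]
    ext
    · simp only [Zsqrtd.re_mul, Zsqrtd.im_mul, Zsqrtd.re_sub, Zsqrtd.im_sub, Zsqrtd.re_add,
        Zsqrtd.im_add, Zsqrtd.re_intCast, Zsqrtd.im_intCast]
      rw [hc1, hc2]
      linear_combination (-(a.im + b.im)) * hn
    · simp only [Zsqrtd.re_mul, Zsqrtd.im_mul, Zsqrtd.re_sub, Zsqrtd.im_sub, Zsqrtd.re_add,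
        Zsqrtd.im_add, Zsqrtd.re_intCast, Zsqrtd.im_intCast]
      rw [hc1, hc2]
      linear_combination (a.re + b.re) * hn
  have hdv : (y : GaussianInt) ∣ (a + b) := by
    have h1 : (y : GaussianInt) ∣ (a + b) * (x : GaussianInt) := by
      rw [← hid]; exact dvd_mul_left _ _
    have h2 : IsCoprime (y : GaussianInt) (x : GaussianInt) :=
      hxy.symm.map (Int.castRingHom GaussianInt)
    exact h2.dvd_of_dvd_mul_right h1
  obtain ⟨c', hc'⟩ := hdv
  refine ⟨x, y, hxy, hy0, c', by rw [hc', mul_comm], ?_⟩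
  have hy1 : ((y : ℤ) : GaussianInt) ≠ 0 := by exact_mod_cast hy0
  apply mul_right_cancel₀ hy1
  rw [hid, hc']
  ring

theorem iso_of_truncated
    (H : Truncated 3 (fun x y => y * (1 * x ^ 2 + 0 * x * y + 1 * y ^ 2))) : Iso := by
  intro ε hε
  have one_le : ∀ (S : Finset GaussianInt) (x : GaussianInt), System S x → 1 ≤ ∏ Q ∈ S, ab Q :=
    fun S x hS => Finset.one_le_prod (fun Q hQ => one_le_ab (hS.1 Q hQ).1.ne_zero)
  by_cases hε1 : 1 ≤ ε
  · refine ⟨1, one_pos, fun a b c _ _ h0 _ S hS => ?_⟩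
    have ha : a ≠ 0 := left_ne_zero_of_mul (left_ne_zero_of_mul h0)
    have h1 : 1 ≤ max (ab a) (max (ab b) (ab c)) := (one_le_ab ha).trans (le_max_left _ _)
    have h2 := Real.rpow_le_one_of_one_le_of_nonpos h1 (show 1 - ε ≤ 0 by linarith)
    have h3 := one_le S _ hS
    linarith
  push Not at hε1
  obtain ⟨κ, HK⟩ := H ε hε
  set κ' : ℝ := |κ| + 1 with hκ'
  have hκ0 : 0 < κ' := by positivity
  refine ⟨1 / (4 * κ'), by positivity, fun a b c hs hcop h0 he S hS => ?_⟩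
  have hab : a * b ≠ 0 := left_ne_zero_of_mul h0
  have ha : a ≠ 0 := left_ne_zero_of_mul hab
  have hb : b ≠ 0 := right_ne_zero_of_mul hab
  have hc : c ≠ 0 := right_ne_zero_of_mul h0
  subst hs
  obtain ⟨x, y, hxy, hy, c', h1, h2⟩ := exists_xy a b he hc
  -- the divisor c' of 2
  have hc2 : c' ∣ 2 := by
    have e1 : c' ∣ a + b := ⟨_, h1⟩
    have e2 : c' ∣ a - b := by
      have : a - b = c' * (⟨0, -1⟩ * x) := by
        have : a - b = ⟨0, -1⟩ * (⟨0, 1⟩ * (a - b)) := by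
          rw [← mul_assoc]
          have : (⟨0, -1⟩ : GaussianInt) * ⟨0, 1⟩ = 1 := by ext <;> simp
          rw [this, one_mul]
        rw [this, h2]; ring
      exact ⟨_, this⟩
    have e3 : c' ∣ 2 * a := by
      have := dvd_add e1 e2
      have h : a + b + (a - b) = 2 * a := by ring
      rwa [h] at this
    have e4 : c' ∣ 2 * b := by
      have := dvd_sub e1 e2
      have h : a + b - (a - b) = 2 * b := by ring
      rwa [h] at this
    obtain ⟨u, v, huv⟩ := hcop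
    have : (2 : GaussianInt) = u * (2 * a) + v * (2 * b) := by
      linear_combination (-2 : GaussianInt) * huv
    rw [this]
    exact dvd_add (e3.mul_left u) (e4.mul_left v)
  have hc'2 : ab c' ≤ 2 := by
    have := ab_le_of_dvd (two_ne_zero) hc2
    have h2' : ab (2 : GaussianInt) = 2 := by
      have := ab_int 2
      simpa using this
    rwa [h2'] at this
  set M : ℝ := max |(x : ℝ)| |(y : ℝ)| with hMdef
  have hM1 : 1 ≤ M := Pool.Agent.Q245.Vj.one_le_H hxy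
  have hc0 : 0 ≤ ab c' := ab_nonneg _
  -- sizes
  have n1 : ab (a + b) ≤ 2 * M := by
    rw [h1, ab_mul, ab_int]
    have : |(y : ℝ)| ≤ M := le_max_right _ _
    nlinarith [abs_nonneg (y : ℝ)]
  have n2 : ab (a - b) ≤ 2 * M := by
    have h3 : ab (⟨0, 1⟩ * (a - b)) = ab (a - b) := by
      rw [ab_mul]
      have : ab (⟨0, 1⟩ : GaussianInt) = 1 := by
        have := ab_mk_sq 0 1
        push_cast at this
        nlinarith [ab_nonneg (⟨0, 1⟩ : GaussianInt)]
      rw [this, one_mul]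
    rw [← h3, h2, ab_mul, ab_int]
    have : |(x : ℝ)| ≤ M := le_max_left _ _
    nlinarith [abs_nonneg (x : ℝ)]
  have n3 : ab a ≤ 2 * M := by
    have h3 : ab (2 * a) ≤ ab (a + b) + ab (a - b) := by
      have : 2 * a = (a + b) + (a - b) := by ring
      rw [this]
      unfold ab
      rw [map_add]
      exact norm_add_le _ _
    have h4 : ab (2 * a) = 2 * ab a := by
      rw [ab_mul]
      have := ab_int 2
      simp at this
      rw [this]
    linarith
  have hmax : max (ab a) (max (ab b) (ab (a + b))) ≤ 2 * M :=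
    max_le n3 (max_le (he ▸ n3) n1)
  -- the inequality for x, y
  have hF : y * (1 * x ^ 2 + 0 * x * y + 1 * y ^ 2) ≠ 0 := by
    have : 0 < x ^ 2 + y ^ 2 := by positivity
    simp only [one_mul, zero_mul, add_zero]
    exact mul_ne_zero hy (by omega)
  have h5 := HK x y hxy hF
  simp only [one_mul, zero_mul, add_zero] at h5 hF
  have h3 : (((3 : ℕ) : ℝ) - 2 - ε) = 1 - ε := by push_cast; ring
  rw [h3, ← hMdef] at h5
  -- radicals
  have hrad : (rad (y * (x ^ 2 + y ^ 2)) : ℝ) ≤ 2 * ∏ Q ∈ S, ab Q := by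
    apply lower S _ (fun Q hQ => (hS.1 Q hQ).1.ne_zero)
    intro Q hQ hQd hQ2
    apply hS.2.1 Q hQ
    have key2a : (2 : GaussianInt) * a = c' * ⟨0, -1⟩ * ⟨x, y⟩ := by
      have e1 : (2 : GaussianInt) * a = (a + b) + ⟨0, -1⟩ * (⟨0, 1⟩ * (a - b)) := by
        rw [← mul_assoc]
        have : (⟨0, -1⟩ : GaussianInt) * ⟨0, 1⟩ = 1 := by ext <;> simp
        rw [this]; ring
      rw [e1, h1, h2]
      have e2 : (⟨0, -1⟩ : GaussianInt) * ⟨x, y⟩ = y + ⟨0, -1⟩ * x := by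
        ext <;> simp
      rw [mul_assoc c', e2]; ring
    have key2b : (2 : GaussianInt) * b = c' * ⟨0, 1⟩ * ⟨x, -y⟩ := by
      have e1 : (2 : GaussianInt) * b = (a + b) + ⟨0, 1⟩ * (⟨0, 1⟩ * (a - b)) := by
        rw [← mul_assoc]
        have : (⟨0, 1⟩ : GaussianInt) * ⟨0, 1⟩ = -1 := by ext <;> simp
        rw [this]; ring
      rw [e1, h1, h2]
      have e2 : (⟨0, 1⟩ : GaussianInt) * ⟨x, -y⟩ = y + ⟨0, 1⟩ * x := by
        ext <;> simp
      rw [mul_assoc c', e2]; ring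
    have hfac : ((y * (x ^ 2 + y ^ 2) : ℤ) : GaussianInt) = y * (⟨x, y⟩ * ⟨x, -y⟩) := by
      rw [cast_mk, cast_mk]
      ext
      · simp only [Zsqrtd.re_mul, Zsqrtd.im_mul]; ring
      · simp only [Zsqrtd.re_mul, Zsqrtd.im_mul]; ring
    rw [hfac] at hQd
    rcases hQ.dvd_or_dvd hQd with h6 | h6
    · exact Dvd.dvd.mul_left (h1 ▸ h6.mul_left c') _
    · rcases hQ.dvd_or_dvd h6 with h7 | h7
      · have : Q ∣ 2 * a := key2a ▸ h7.mul_left _
        rcases hQ.dvd_or_dvd this with h8 | h8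
        · exact absurd h8 hQ2
        · exact (h8.mul_right b).mul_right _
      · have : Q ∣ 2 * b := key2b ▸ h7.mul_left _
        rcases hQ.dvd_or_dvd this with h8 | h8
        · exact absurd h8 hQ2
        · exact (h8.mul_left a).mul_right _
  have hP := one_le S _ hS
  have hma : 0 ≤ max (ab a) (max (ab b) (ab (a + b))) := (ab_nonneg a).trans (le_max_left _ _)
  have h6 : (max (ab a) (max (ab b) (ab (a + b)))) ^ (1 - ε) ≤ 2 * M ^ (1 - ε) := by
    calc (max (ab a) (max (ab b) (ab (a + b)))) ^ (1 - ε) ≤ (2 * M) ^ (1 - ε) :=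
          Real.rpow_le_rpow hma hmax (by linarith)
      _ = 2 ^ (1 - ε) * M ^ (1 - ε) := Real.mul_rpow (by norm_num) (by linarith)
      _ ≤ 2 * M ^ (1 - ε) := by
          apply mul_le_mul_of_nonneg_right _ (Real.rpow_nonneg (by linarith) _)
          calc (2 : ℝ) ^ (1 - ε) ≤ 2 ^ (1 : ℝ) :=
                Real.rpow_le_rpow_of_exponent_le (by norm_num) (by linarith)
            _ = 2 := by norm_num
  have h7 : κ * (rad (y * (x ^ 2 + y ^ 2)) : ℝ) ≤ κ' * (2 * ∏ Q ∈ S, ab Q) := by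
    have e1 : κ ≤ κ' := by rw [hκ']; linarith [le_abs_self κ]
    have e2 : (0 : ℝ) ≤ rad (y * (x ^ 2 + y ^ 2)) := by positivity
    calc κ * (rad (y * (x ^ 2 + y ^ 2)) : ℝ) ≤ κ' * (rad (y * (x ^ 2 + y ^ 2)) : ℝ) :=
          mul_le_mul_of_nonneg_right e1 e2
      _ ≤ _ := mul_le_mul_of_nonneg_left hrad hκ0.le
  rw [div_mul_eq_mul_div, one_mul, div_le_iff₀ (by positivity)]
  linarith

theorem main : Iso ↔ ABC := by
  have h := (Pool.Agent.Q245.Vj.main_two 1 0 1 one_ne_zero 1 (-1) (by decide) (by norm_num)).1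
  exact ⟨fun H => h.mp (truncated_of_iso H), fun H => iso_of_truncated (h.mpr H)⟩

end Pool.Agent.Q245.Gi
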