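import Mathlib
import Pool.Agent.Q245.Vj.Main

set_option autoImplicit false
set_option maxHeartbeats 1000000

namespace Pool.Agent.Q245.Gi

open Pool.Agent.Q245.Vj (rad ABC Truncated)

/-- the absolute value of a Gaussian integer -/
noncomputable def ab (z : GaussianInt) : ℝ := ‖GaussianInt.toComplex z‖

lemma ab_mul (z w : GaussianInt) : ab (z * w) = ab z * ab w := by
  simp [ab]

lemma ab_sq (z : GaussianInt) : ab z ^ 2 = (z.norm : ℝ) := by
  unfold ab
  rw [← Complex.normSq_eq_norm_sq, GaussianInt.intCast_real_norm]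

lemma ab_nonneg (z : GaussianInt) : 0 ≤ ab z := norm_nonneg _

lemma norm_pos {z : GaussianInt} (hz : z ≠ 0) : 1 ≤ z.norm := by
  have := GaussianInt.norm_pos.mpr hz
  omega

lemma one_le_ab {z : GaussianInt} (hz : z ≠ 0) : 1 ≤ ab z := by
  have h1 : (1 : ℝ) ≤ ab z ^ 2 := by
    rw [ab_sq]; exact_mod_cast norm_pos hz
  nlinarith [ab_nonneg z]

lemma ab_int (n : ℤ) : ab (n : GaussianInt) = |(n : ℝ)| := by
  simp [ab]

lemma ab_le_of_dvd {z w : GaussianInt} (hw : w ≠ 0) (h : z ∣ w) : ab z ≤ ab w := by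
  obtain ⟨u, rfl⟩ := h
  rw [ab_mul]
  have hu : u ≠ 0 := right_ne_zero_of_mul hw
  nlinarith [one_le_ab hu, ab_nonneg z]

lemma ab_associated {z w : GaussianInt} (h : Associated z w) : ab z = ab w := by
  by_cases hw : w = 0
  · have : z = 0 := by rw [hw] at h; exact (associated_zero_iff_eq_zero z).mp h
    rw [hw, this]
  · have hz : z ≠ 0 := fun h0 => hw (by rw [h0] at h; exact (associated_zero_iff_eq_zero w).mp h.symm)
    exact le_antisymm (ab_le_of_dvd hw h.dvd) (ab_le_of_dvd hz h.symm.dvd)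

/-- an odd prime number is squarefree in the Gaussian integers -/
lemma sqfree (p : ℕ) (hp : p.Prime) (hp2 : p ≠ 2) : Squarefree ((p : ℤ) : GaussianInt) := by
  rw [squarefree_iff_no_irreducibles]
  · intro π hπ hdvd
    have hπ0 : π ≠ 0 := hπ.ne_zero
    obtain ⟨w, hw⟩ := hdvd
    have hpne : ((p : ℤ) : GaussianInt) ≠ 0 := by exact_mod_cast hp.ne_zero
    have hw0 : w ≠ 0 := by rintro rfl; simp at hw; exact hp.ne_zero (by exact_mod_cast hw)
    -- norms
    have hn : (p : ℤ) * p = π.norm * π.norm * w.norm := by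
      have := congrArg Zsqrtd.norm hw
      rw [Zsqrtd.norm_mul, Zsqrtd.norm_mul, Zsqrtd.norm_intCast] at this
      exact this
    have h1 : π.norm.natAbs ^ 2 ∣ p ^ 2 := by
      refine ⟨w.norm.natAbs, ?_⟩
      have := congrArg Int.natAbs hn
      rw [Int.natAbs_mul, Int.natAbs_mul, Int.natAbs_mul] at this
      simp only [Int.natAbs_natCast] at this
      rw [sq, sq, this]
    have h2 : π.norm.natAbs ∣ p := (Nat.pow_dvd_pow_iff (by norm_num)).mp h1
    have h3 : π.norm.natAbs ≠ 1 := by
      intro h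
      exact hπ.not_isUnit (Zsqrtd.norm_eq_one_iff.mp h)
    have h4 : π.norm.natAbs = p := (Nat.dvd_prime hp).mp h2 |>.resolve_left h3
    have h5 : π.norm = p := by
      have := norm_pos hπ0
      omega
    have h6 : w.norm = 1 := by
      rw [h5] at hn
      have : (p : ℤ) * p ≠ 0 := by
        have : (p : ℤ) ≠ 0 := by exact_mod_cast hp.ne_zero
        positivity
      exact mul_left_cancel₀ this (by linarith)
    -- conj
    have h7 : π * w = star π := by
      apply mul_left_cancel₀ hπ0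
      rw [← mul_assoc, ← hw, ← Zsqrtd.norm_eq_mul_conj, h5]
    have hw1 := congrArg Zsqrtd.re h7
    have hw2 := congrArg Zsqrtd.im h7
    simp only [Zsqrtd.re_mul, Zsqrtd.im_mul, Zsqrtd.re_star, Zsqrtd.im_star] at hw1 hw2
    have hwn : w.re * w.re + w.im * w.im = 1 := by
      have := Zsqrtd.norm_def w
      rw [h6] at this
      linarith
    have hpn : π.re * π.re + π.im * π.im = p := by
      have := Zsqrtd.norm_def π
      rw [h5] at this
      linarith
    have hodd : ¬ (2 : ℤ) ∣ p := by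
      intro h
      have : 2 ∣ p := by exact_mod_cast h
      exact hp2 ((Nat.prime_dvd_prime_iff_eq Nat.prime_two hp).mp this).symm
    have hnsq : ∀ k : ℤ, k * k ≠ p := by
      intro k hk
      have h : k.natAbs * k.natAbs = p := by
        have := congrArg Int.natAbs hk
        rwa [Int.natAbs_mul, Int.natAbs_natCast] at this
      rcases (Nat.prime_mul_iff.mp (h ▸ hp)) with ⟨h8, h9⟩ | ⟨h8, h9⟩ <;>
        exact Nat.not_prime_one (h9 ▸ h8)
    have hcases : (w.re = 0 ∧ (w.im = 1 ∨ w.im = -1)) ∨ (w.im = 0 ∧ (w.re = 1 ∨ w.re = -1)) := by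
      have hr : w.re ≤ 1 := by nlinarith [mul_self_nonneg w.im]
      have hr' : -1 ≤ w.re := by nlinarith [mul_self_nonneg w.im]
      have hi : w.im ≤ 1 := by nlinarith [mul_self_nonneg w.re]
      have hi' : -1 ≤ w.im := by nlinarith [mul_self_nonneg w.re]
      have e1 : w.re = -1 ∨ w.re = 0 ∨ w.re = 1 := by omega
      have e2 : w.im = -1 ∨ w.im = 0 ∨ w.im = 1 := by omega
      rcases e1 with e1 | e1 | e1 <;> rcases e2 with e2 | e2 | e2 <;> rw [e1, e2] at hwn <;>
        omega
    rcases hcases with ⟨a1, a2 | a2⟩ | ⟨a1, a2 | a2⟩ <;> rw [a1, a2] at hw1 hw2 <;>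
      simp at hw1 hw2
    · -- w = i : π i = star π
      apply hodd
      refine ⟨π.re * π.re, ?_⟩
      rw [← hpn]
      have : π.im = -π.re := by linarith
      rw [this]; ring
    · apply hodd
      refine ⟨π.re * π.re, ?_⟩
      rw [← hpn]
      have : π.im = π.re := by linarith
      rw [this]; ring
    · have : π.im = 0 := by linarith
      rw [this] at hpn
      exact hnsq π.re (by linarith)
    · have : π.re = 0 := by linarith
      rw [this] at hpn
      exact hnsq π.im (by linarith)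
  · intro h
    exact hp.ne_zero (by exact_mod_cast h)

lemma ab_prod {ι : Type} (s : Finset ι) (f : ι → GaussianInt) :
    ab (∏ i ∈ s, f i) = ∏ i ∈ s, ab (f i) := by
  simp [ab, map_prod]

lemma ab_nat (n : ℕ) : ab ((n : ℤ) : GaussianInt) = (n : ℝ) := by
  rw [ab_int]; simp

/-- a Gaussian prime which divides `n` divides a rational prime divisor of `n` -/
lemma dvd_prime {Q : GaussianInt} (hQ : Prime Q) {n : ℤ} (hn : n ≠ 0) (h : Q ∣ (n : GaussianInt)) :
    ∃ p ∈ n.natAbs.primeFactors, Q ∣ ((p : ℤ) : GaussianInt) := by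
  have h1 : Q ∣ ((n.natAbs : ℤ) : GaussianInt) := by
    rcases Int.natAbs_eq n with h2 | h2
    · rwa [← h2]
    · have : ((n.natAbs : ℤ) : GaussianInt) = - (n : GaussianInt) := by
        have : (n.natAbs : ℤ) = - n := by omega
        rw [this]; push_cast; rfl
      rw [this]; exact (dvd_neg).mpr h
  have hn' : n.natAbs ≠ 0 := by omega
  rw [← Nat.factorization_prod_pow_eq_self hn'] at h1
  unfold Finsupp.prod at h1
  push_cast at h1
  rw [Prime.dvd_finset_prod_iff hQ] at h1
  obtain ⟨p, hp, hpd⟩ := h1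
  refine ⟨p, by simpa using hp, ?_⟩
  have := hQ.dvd_of_dvd_pow hpd
  exact_mod_cast this

/-- the upper bound -/
lemma upper (S : Finset GaussianInt) (n : ℤ) (hn : n ≠ 0)
    (h1 : ∀ Q ∈ S, Prime Q ∧ Q ∣ (n : GaussianInt))
    (h2 : ∀ Q ∈ S, ∀ R ∈ S, Associated Q R → Q = R) : ∏ Q ∈ S, ab Q ≤ (rad n : ℝ) := by
  have hd : (∏ Q ∈ S, Q) ∣ ((rad n : ℤ) : GaussianInt) := by
    apply Finset.prod_dvd_of_coprime
    · intro Q hQ R hR hne
      have hQp := (h1 Q hQ).1
      have hRp := (h1 R hR).1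
      refine (Irreducible.coprime_iff_not_dvd hQp.irreducible).mpr fun hdv => ?_
      exact hne (h2 Q hQ R hR (hQp.associated_of_dvd hRp hdv))
    · intro Q hQ
      obtain ⟨p, hp, hpd⟩ := dvd_prime (h1 Q hQ).1 hn (h1 Q hQ).2
      refine hpd.trans ?_
      unfold Pool.Agent.Q245.Vj.rad
      push_cast
      have := Finset.dvd_prod_of_mem (fun p : ℕ => ((p : ℕ) : GaussianInt)) hp
      simpa using this
  have h0 : ((rad n : ℤ) : GaussianInt) ≠ 0 := by
    have := Pool.Agent.Q245.Vj.rad_pos n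
    intro h
    have : rad n = 0 := by exact_mod_cast h
    omega
  have := ab_le_of_dvd h0 hd
  rw [ab_prod, ab_nat] at this
  exact this

lemma dvd_pow_of_primes (P : GaussianInt) (x : GaussianInt) :
    x ≠ 0 → (∀ q, Prime q → q ∣ x → q ∣ P) → ∃ k : ℕ, x ∣ P ^ k := by
  induction x using UniqueFactorizationMonoid.induction_on_prime with
  | h₁ => intro h; exact absurd rfl h
  | h₂ x hx => intro _ _; exact ⟨0, by simpa using hx.dvd⟩
  | h₃ a p ha hp ih =>
    intro _ h
    obtain ⟨k, hk⟩ := ih ha fun q hq hqa => h q hq (hqa.mul_left p)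
    refine ⟨k + 1, ?_⟩
    rw [pow_succ', ]
    exact mul_dvd_mul (h p hp (dvd_mul_right p a)) hk

/-- the lower bound -/
lemma lower (S : Finset GaussianInt) (n : ℤ) (hS : ∀ Q ∈ S, Q ≠ 0)
    (h : ∀ Q, Prime Q → Q ∣ (n : GaussianInt) → ¬ Q ∣ 2 → ∃ R ∈ S, Associated Q R) :
    (rad n : ℝ) ≤ 2 * ∏ Q ∈ S, ab Q := by
  set P : GaussianInt := ∏ Q ∈ S, Q with hP
  have hP0 : P ≠ 0 := Finset.prod_ne_zero_iff.mpr hS
  set T : Finset ℕ := n.natAbs.primeFactors.erase 2 with hT
  have hd : (∏ p ∈ T, ((p : ℤ) : GaussianInt)) ∣ P := by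
    apply Finset.prod_dvd_of_coprime
    · intro p hp q hq hne
      have hpp : p.Prime := Nat.prime_of_mem_primeFactors (Finset.mem_of_mem_erase hp)
      have hqp : q.Prime := Nat.prime_of_mem_primeFactors (Finset.mem_of_mem_erase hq)
      have h1 : IsCoprime (p : ℤ) (q : ℤ) :=
        Nat.isCoprime_iff_coprime.mpr ((Nat.coprime_primes hpp hqp).mpr hne)
      exact h1.map (Int.castRingHom GaussianInt)
    · intro p hp
      have hpn := Finset.mem_of_mem_erase hp
      have hp2 : p ≠ 2 := Finset.ne_of_mem_erase hp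
      have hpp : p.Prime := Nat.prime_of_mem_primeFactors hpn
      have hdn : (p : ℤ) ∣ n := by
        have := Nat.dvd_of_mem_primeFactors hpn
        exact Int.natCast_dvd.mpr this
      have hpd : ((p : ℤ) : GaussianInt) ∣ (n : GaussianInt) := by exact_mod_cast hdn
      have hp0 : ((p : ℤ) : GaussianInt) ≠ 0 := by
        intro h; exact hpp.ne_zero (by exact_mod_cast h)
      obtain ⟨k, hk⟩ := dvd_pow_of_primes P ((p : ℤ) : GaussianInt) hp0 (by
        intro q hq hqp
        have hq2 : ¬ q ∣ 2 := by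
          intro h2
          have hc : IsCoprime ((p : ℤ) : GaussianInt) ((2 : ℤ) : GaussianInt) := by
            have h1 : IsCoprime (p : ℤ) (2 : ℤ) := by
              have := Nat.isCoprime_iff_coprime.mpr ((Nat.coprime_primes hpp Nat.prime_two).mpr hp2)
              exact_mod_cast this
            exact h1.map (Int.castRingHom GaussianInt)
          exact hq.not_unit (hc.isUnit_of_dvd' hqp (by simpa using h2))
        obtain ⟨R, hR, hQR⟩ := h q hq (hqp.trans hpd) hq2
        exact hQR.dvd.trans (Finset.dvd_prod_of_mem _ hR))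
      have hsq := sqfree p hpp hp2
      by_cases hk0 : k = 0
      · subst hk0
        rw [pow_zero] at hk
        exact (isUnit_of_dvd_one hk).dvd
      · exact (hsq.dvd_pow_iff_dvd hk0).mp hk
  have h1 := ab_le_of_dvd hP0 hd
  rw [hP, ab_prod, ab_prod] at h1
  simp only [ab_nat] at h1
  have h2 : (rad n : ℝ) ≤ 2 * ∏ p ∈ T, (p : ℝ) := by
    unfold Pool.Agent.Q245.Vj.rad
    push_cast
    by_cases hm : 2 ∈ n.natAbs.primeFactors
    · rw [← Finset.mul_prod_erase _ _ hm]
      simp [hT]
    · rw [hT, Finset.erase_eq_of_notMem hm]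
      have : (0 : ℝ) ≤ ∏ p ∈ n.natAbs.primeFactors, (p : ℝ) := by positivity
      linarith
  linarith

end Pool.Agent.Q245.Gi
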